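import Mathlib.Combinatorics.SimpleGraph.AdjMatrix
import Mathlib.Analysis.Convex.Exposed
import Mathlib.LinearAlgebra.Eigenspace.Basic
import Mathlib.LinearAlgebra.Matrix.ToLin
import Mathlib.Tactic

namespace Pool.Agent.Results.MP_0d5a8e_co.DiagonalEdge

open Finset Matrix

section Defs

variable {V : Type} [Fintype V] [DecidableEq V]

/-- The set of eigenvalues of the adjacency matrix of `G`. -/
def spec (G : SimpleGraph V) [DecidableRel G.Adj] : Set ℝ :=
  {μ | ∃ x : V → ℝ, x ≠ 0 ∧ (G.adjMatrix ℝ) *ᵥ x = μ • x}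

/-- `θ` is the second-largest distinct eigenvalue `θ₂` of `G`. -/
def IsSecondEigenvalue (G : SimpleGraph V) [DecidableRel G.Adj] (θ : ℝ) : Prop :=
  ∃ θ₁, IsGreatest (spec G) θ₁ ∧ IsGreatest {μ | μ ∈ spec G ∧ μ < θ₁} θ

/-- The eigenspace of the adjacency matrix for `θ`. -/
def Eig (G : SimpleGraph V) [DecidableRel G.Adj] (θ : ℝ) : Submodule ℝ (V → ℝ) :=
  Module.End.eigenspace (Matrix.toLin' (G.adjMatrix ℝ)) θ

/-- The point `v_i`: the `i`-th row of the matrix whose columns are the basis vectors. -/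
noncomputable def pt {G : SimpleGraph V} [DecidableRel G.Adj] {θ : ℝ} {d : ℕ}
    (b : Module.Basis (Fin d) ℝ (Eig G θ)) (i : V) : Fin d → ℝ :=
  fun k => (b k : V → ℝ) i

/-- The eigenpolytope `P_G(θ) = conv {v_i}`. -/
def eigenpolytope {G : SimpleGraph V} [DecidableRel G.Adj] {θ : ℝ} {d : ℕ}
    (b : Module.Basis (Fin d) ℝ (Eig G θ)) : Set (Fin d → ℝ) :=
  convexHull ℝ (Set.range (pt b))

end Defs

/-! ### The graph: the hexagon of six pairs -/

/-- The adjacency rule on `Fin 12`; the vertex `i` is the copy `i / 6` of the point `i % 6` of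
the cyclic group of order six. -/
def adjb (i j : Fin 12) : Bool :=
  let a := (i.val + 6 - j.val % 6) % 6
  (i != j) && (a == 0 || a == 1 || a == 5 || ((a == 2 || a == 4) && (i.val / 6 == j.val / 6)))

/-- The graph. -/
def G12 : SimpleGraph (Fin 12) where
  Adj i j := adjb i j = true
  symm := ⟨by decide +kernel⟩
  loopless := ⟨by decide +kernel⟩

instance : DecidableRel G12.Adj := fun i j => inferInstanceAs (Decidable (adjb i j = true))

/-- The integer adjacency matrix. -/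
def M : Matrix (Fin 12) (Fin 12) ℤ := fun i j => if adjb i j then 1 else 0

/-- The integer matrix of the projection on the eigenspace. -/
def W : Matrix (Fin 12) (Fin 12) ℤ := fun i j =>
  (![2, 1, -1, -2, -1, 1] : Fin 6 → ℤ) ⟨(i.val + 6 - j.val % 6) % 6, Nat.mod_lt _ (by norm_num)⟩

/-- Integer eigenvectors. -/
def z1 (i : Fin 12) : ℤ := (![2, 1, -1, -2, -1, 1] : Fin 6 → ℤ) ⟨i.val % 6, Nat.mod_lt _ (by norm_num)⟩
def z2 (i : Fin 12) : ℤ := (![0, 1, 1, 0, -1, -1] : Fin 6 → ℤ) ⟨i.val % 6, Nat.mod_lt _ (by norm_num)⟩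

lemma poly_zero : (M - 7) * (M - 2) * (M - 1) * (M + 1) * (M + 2) = 0 := by decide +kernel

lemma poly_proj : (M - 7) * (M - 1) * (M + 1) * (M + 2) = (-5 : ℤ) • W := by decide +kernel

lemma W_span : ∀ i j : Fin 12, 2 * W i j = z1 i * W 0 j + z2 i * (2 * W 1 j - W 0 j) := by
  decide +kernel

lemma M_z1 : M *ᵥ z1 = 2 • z1 := by decide +kernel
lemma M_z2 : M *ᵥ z2 = 2 • z2 := by decide +kernel
lemma M_one : M *ᵥ (fun _ => (1:ℤ)) = 7 • (fun _ => (1:ℤ)) := by decide +kernel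

/-- The real adjacency matrix. -/
abbrev A : Matrix (Fin 12) (Fin 12) ℝ := G12.adjMatrix ℝ

/-- Casting integer matrices to real ones. -/
abbrev cst : Matrix (Fin 12) (Fin 12) ℤ →+* Matrix (Fin 12) (Fin 12) ℝ :=
  (Int.castRingHom ℝ).mapMatrix

lemma cst_M : cst M = A := by
  ext i j
  have h : G12.Adj i j ↔ adjb i j = true := Iff.rfl
  simp only [cst, RingHom.mapMatrix_apply, Matrix.map_apply, M, A, SimpleGraph.adjMatrix_apply]
  by_cases hij : adjb i j = true
  · rw [if_pos hij, if_pos (h.mpr hij)]; simp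
  · rw [if_neg hij, if_neg (fun h' => hij (h.mp h'))]; simp

lemma cast_mulVec (N : Matrix (Fin 12) (Fin 12) ℤ) (x : Fin 12 → ℤ) :
    (cst N) *ᵥ (fun i => (x i : ℝ)) = fun i => ((N *ᵥ x) i : ℝ) := by
  ext i
  simp [mulVec, dotProduct]

/-- Real versions of the eigenvectors. -/
def u1 (i : Fin 12) : ℝ := z1 i
def u2 (i : Fin 12) : ℝ := z2 i

lemma mem_Eig (x : Fin 12 → ℝ) : x ∈ Eig G12 2 ↔ A *ᵥ x = (2:ℝ) • x := by
  simp [Eig, A]

lemma u1_mem : u1 ∈ Eig G12 2 := by
  rw [mem_Eig, ← cst_M]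
  have := cast_mulVec M z1
  unfold u1
  rw [this, M_z1]
  ext i; simp

lemma u2_mem : u2 ∈ Eig G12 2 := by
  rw [mem_Eig, ← cst_M]
  have := cast_mulVec M z2
  unfold u2
  rw [this, M_z2]
  ext i; simp

lemma sub_ev {μ : ℝ} {x : Fin 12 → ℝ} (h : A *ᵥ x = μ • x) (c : ℝ) (c' : Matrix (Fin 12) (Fin 12) ℝ)
    (hc : c' = c • (1 : Matrix (Fin 12) (Fin 12) ℝ)) : (A - c') *ᵥ x = (μ - c) • x := by
  rw [hc, sub_mulVec, h, smul_mulVec, one_mulVec, sub_smul]

lemma add_ev {μ : ℝ} {x : Fin 12 → ℝ} (h : A *ᵥ x = μ • x) (c : ℝ) (c' : Matrix (Fin 12) (Fin 12) ℝ)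
    (hc : c' = c • (1 : Matrix (Fin 12) (Fin 12) ℝ)) : (A + c') *ᵥ x = (μ + c) • x := by
  rw [hc, add_mulVec, h, smul_mulVec, one_mulVec, add_smul]

lemma num7 : (7 : Matrix (Fin 12) (Fin 12) ℝ) = (7:ℝ) • 1 := by
  ext i j; simp [Matrix.ofNat_apply, Matrix.one_apply]
lemma num2 : (2 : Matrix (Fin 12) (Fin 12) ℝ) = (2:ℝ) • 1 := by
  ext i j; simp [Matrix.ofNat_apply, Matrix.one_apply]
lemma num1 : (1 : Matrix (Fin 12) (Fin 12) ℝ) = (1:ℝ) • 1 := by simp

lemma ev_zero {μ : ℝ} {x : Fin 12 → ℝ} (h : A *ᵥ x = μ • x) (hx : x ≠ 0) :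
    μ = 7 ∨ μ = 2 ∨ μ = 1 ∨ μ = -1 ∨ μ = -2 := by
  have h1 : (A - 7) * (A - 2) * (A - 1) * (A + 1) * (A + 2) = 0 := by
    have := congrArg cst poly_zero
    simpa only [map_mul, map_sub, map_add, map_one, map_zero, map_ofNat, cst_M] using this
  have h2 : ((A - 7) * (A - 2) * (A - 1) * (A + 1) * (A + 2)) *ᵥ x
      = ((μ + 2) * ((μ + 1) * ((μ - 1) * ((μ - 2) * (μ - 7))))) • x := by
    simp only [← mulVec_mulVec, add_ev h 2 2 num2, mulVec_smul, add_ev h 1 1 num1,
      sub_ev h 1 1 num1, sub_ev h 2 2 num2, sub_ev h 7 7 num7, smul_smul]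
  rw [h1, zero_mulVec] at h2
  have h3 := (smul_eq_zero.mp h2.symm).resolve_right hx
  rcases mul_eq_zero.mp h3 with h4 | h4
  · right; right; right; right; linarith
  rcases mul_eq_zero.mp h4 with h5 | h5
  · right; right; right; left; linarith
  rcases mul_eq_zero.mp h5 with h6 | h6
  · right; right; left; linarith
  rcases mul_eq_zero.mp h6 with h7 | h7
  · right; left; linarith
  · left; linarith

lemma eig_span {x : Fin 12 → ℝ} (hx : x ∈ Eig G12 2) (i : Fin 12) :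
    2 * x i = u1 i * x 0 + u2 i * (2 * x 1 - x 0) := by
  rw [mem_Eig] at hx
  have h1 : (A - 7) * (A - 1) * (A + 1) * (A + 2) = (-5 : ℝ) • cst W := by
    have := congrArg cst poly_proj
    have h5 : cst ((-5 : ℤ) • W) = (-5 : ℝ) • cst W := by
      ext i j
      simp only [cst, RingHom.mapMatrix_apply, Matrix.map_apply, Matrix.smul_apply, smul_eq_mul,
        eq_intCast]
      push_cast
      ring
    rw [h5] at this
    simpa only [map_mul, map_sub, map_add, map_one, map_zero, map_ofNat, cst_M] using this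
  have h2 : ((A - 7) * (A - 1) * (A + 1) * (A + 2)) *ᵥ x = (-60 : ℝ) • x := by
    simp only [← mulVec_mulVec, add_ev hx 2 2 num2, mulVec_smul, add_ev hx 1 1 num1,
      sub_ev hx 1 1 num1, sub_ev hx 7 7 num7, smul_smul]
    congr 1
    norm_num
  rw [h1, smul_mulVec] at h2
  have h3 : ∀ j, (cst W *ᵥ x) j = 12 * x j := by
    intro j
    have := congrFun h2 j
    simp only [Pi.smul_apply, smul_eq_mul] at this
    linarith
  have h4 : 2 * (cst W *ᵥ x) i = u1 i * (cst W *ᵥ x) 0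
      + u2 i * (2 * (cst W *ᵥ x) 1 - (cst W *ᵥ x) 0) := by
    simp only [mulVec, dotProduct, mul_sum, ← sum_sub_distrib, ← sum_add_distrib]
    apply sum_congr rfl
    intro j _
    have h5 : (2 * (W i j : ℝ)) = u1 i * W 0 j + u2 i * (2 * W 1 j - W 0 j) := by
      unfold u1 u2
      exact_mod_cast W_span i j
    simp only [cst, RingHom.mapMatrix_apply, Matrix.map_apply, eq_intCast]
    linear_combination (x j) * h5
  rw [h3, h3, h3] at h4
  linarith

lemma second : IsSecondEigenvalue G12 2 := by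
  refine ⟨7, ⟨⟨fun _ => 1, ?_, ?_⟩, ?_⟩, ⟨⟨⟨u1, ?_, (mem_Eig _).mp u1_mem⟩, by norm_num⟩, ?_⟩⟩
  · intro h; have := congrFun h 0; simp at this
  · have h := cast_mulVec M (fun _ => 1)
    rw [cst_M, M_one] at h
    simp only [Int.cast_one] at h
    rw [show G12.adjMatrix ℝ = A from rfl, h]
    ext i; simp
  · rintro μ ⟨x, hx, h⟩
    rcases ev_zero h hx with h' | h' | h' | h' | h' <;> rw [h'] <;> norm_num
  · intro h; have := congrFun h 0; simp [u1, z1] at this
  · rintro μ ⟨⟨x, hx, h⟩, hlt⟩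
    rcases ev_zero h hx with h' | h' | h' | h' | h' <;> linarith

/-! ### The geometry -/

section Geometry

variable {d : ℕ} (b : Module.Basis (Fin d) ℝ (Eig G12 2))

/-- Every eigenvector is a linear functional of the points. -/
lemma functional {u : Fin 12 → ℝ} (hu : u ∈ Eig G12 2) :
    ∃ l : (Fin d → ℝ) →ₗ[ℝ] ℝ, ∀ i, l (pt b i) = u i := by
  set c := b.repr ⟨u, hu⟩ with hc
  refine ⟨∑ k, c k • LinearMap.proj k, fun i => ?_⟩
  have h1 : ∑ k, c k • b k = (⟨u, hu⟩ : Eig G12 2) := b.sum_repr ⟨u, hu⟩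
  have h2 := congrArg (fun x : Eig G12 2 => (x : Fin 12 → ℝ) i) h1
  simp only [LinearMap.sum_apply, LinearMap.smul_apply, LinearMap.proj_apply, smul_eq_mul, pt]
  rw [show u i = ((⟨u, hu⟩ : Eig G12 2) : Fin 12 → ℝ) i from rfl, ← h2]
  simp

lemma pt_span (i : Fin 12) :
    (2:ℝ) • pt b i = u1 i • pt b 0 + u2 i • ((2:ℝ) • pt b 1 - pt b 0) := by
  ext k
  simp only [pt, Pi.smul_apply, Pi.add_apply, Pi.sub_apply, smul_eq_mul]
  exact eig_span (b k).2 i

lemma pt_mem (i : Fin 12) : pt b i ∈ eigenpolytope b :=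
  subset_convexHull ℝ _ ⟨i, rfl⟩

lemma vertex_of (l : (Fin d → ℝ) →ₗ[ℝ] ℝ) (i : Fin 12) (hle : ∀ j, l (pt b j) ≤ l (pt b i))
    (heq : ∀ j, l (pt b j) = l (pt b i) → pt b j = pt b i) :
    pt b i ∈ (eigenpolytope b).extremePoints ℝ := by
  set K : Set (Fin d → ℝ) := {x | x = pt b i ∨ l x < l (pt b i)} with hK
  have hKconv : Convex ℝ K := by
    rintro x hx y hy s t hs ht hst
    simp only [hK, Set.mem_ofPred_eq] at hx hy ⊢
    rcases hx with rfl | hx
    · rcases hy with rfl | hy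
      · left; rw [← add_smul, hst, one_smul]
      · rcases ht.eq_or_lt with h0 | h0
        · left
          rw [← h0] at hst ⊢
          rw [show s = 1 by linarith]; simp
        · right
          rw [map_add, map_smul, map_smul, smul_eq_mul, smul_eq_mul]
          have h1 : t * l y < t * l (pt b i) := mul_lt_mul_of_pos_left hy h0
          have h2 : s * l (pt b i) + t * l (pt b i) = l (pt b i) := by rw [← add_mul, hst, one_mul]
          linarith
    · have hy' : l y ≤ l (pt b i) := by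
        rcases hy with rfl | hy
        · exact le_rfl
        · exact hy.le
      rcases hs.eq_or_lt with h0 | h0
      · rw [← h0] at hst ⊢
        have : t = 1 := by linarith
        rw [this, zero_smul, one_smul, zero_add]
        exact hy
      · right
        rw [map_add, map_smul, map_smul, smul_eq_mul, smul_eq_mul]
        have h1 : s * l x < s * l (pt b i) := mul_lt_mul_of_pos_left hx h0
        have h2 : t * l y ≤ t * l (pt b i) := mul_le_mul_of_nonneg_left hy' ht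
        have h3 : s * l (pt b i) + t * l (pt b i) = l (pt b i) := by rw [← add_mul, hst, one_mul]
        linarith
  have hsub : eigenpolytope b ⊆ K := by
    apply convexHull_min _ hKconv
    rintro _ ⟨j, rfl⟩
    rcases (hle j).lt_or_eq with h | h
    · right; exact h
    · left; exact heq j h
  refine ⟨pt_mem b i, ?_⟩
  rintro x hx y hy ⟨s, t, hs, ht, hst, hxy⟩
  have hx' := hsub hx
  have hy' : l y ≤ l (pt b i) := by
    rcases hsub hy with rfl | h
    · exact le_rfl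
    · exact h.le
  rcases hx' with h | h
  · exact h
  · exfalso
    have h1 : l (pt b i) = s * l x + t * l y := by
      conv_lhs => rw [← hxy]
      rw [map_add, map_smul, map_smul, smul_eq_mul, smul_eq_mul]
    have h2 : s * l x < s * l (pt b i) := mul_lt_mul_of_pos_left h hs
    have h3 : t * l y ≤ t * l (pt b i) := mul_le_mul_of_nonneg_left hy' ht.le
    have h4 : s * l (pt b i) + t * l (pt b i) = l (pt b i) := by rw [← add_mul, hst, one_mul]
    linarith

end Geometry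

lemma u_vals : (u1 0 = 2 ∧ u1 1 = 1 ∧ u1 2 = -1 ∧ u1 3 = -2 ∧ u1 4 = -1 ∧ u1 5 = 1 ∧
      u1 6 = 2 ∧ u1 7 = 1 ∧ u1 8 = -1 ∧ u1 9 = -2 ∧ u1 10 = -1 ∧ u1 11 = 1) ∧
    (u2 0 = 0 ∧ u2 1 = 1 ∧ u2 2 = 1 ∧ u2 3 = 0 ∧ u2 4 = -1 ∧ u2 5 = -1 ∧
      u2 6 = 0 ∧ u2 7 = 1 ∧ u2 8 = 1 ∧ u2 9 = 0 ∧ u2 10 = -1 ∧ u2 11 = -1) := by
  have h1 : z1 0 = 2 ∧ z1 1 = 1 ∧ z1 2 = -1 ∧ z1 3 = -2 ∧ z1 4 = -1 ∧ z1 5 = 1 ∧
      z1 6 = 2 ∧ z1 7 = 1 ∧ z1 8 = -1 ∧ z1 9 = -2 ∧ z1 10 = -1 ∧ z1 11 = 1 := by decide +kernel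
  have h2 : z2 0 = 0 ∧ z2 1 = 1 ∧ z2 2 = 1 ∧ z2 3 = 0 ∧ z2 4 = -1 ∧ z2 5 = -1 ∧
      z2 6 = 0 ∧ z2 7 = 1 ∧ z2 8 = 1 ∧ z2 9 = 0 ∧ z2 10 = -1 ∧ z2 11 = -1 := by decide +kernel
  unfold u1 u2
  exact_mod_cast And.intro h1 h2

/-- The eigenspace has dimension two. -/
lemma finrank_two : Module.finrank ℝ (Eig G12 2) = 2 := by
  have hli : LinearIndependent ℝ ![(⟨u1, u1_mem⟩ : Eig G12 2), ⟨u2, u2_mem⟩] := by
    rw [LinearIndependent.pair_iff]
    intro s t h
    have h' := congrArg (fun x : Eig G12 2 => (x : Fin 12 → ℝ)) h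
    simp only [Submodule.coe_add, Submodule.coe_smul, Submodule.coe_zero] at h'
    have h0 := congrFun h' 0
    have h1 := congrFun h' 1
    obtain ⟨⟨a0, a1, -⟩, ⟨b0, b1, -⟩⟩ := u_vals
    simp only [Pi.add_apply, Pi.smul_apply, smul_eq_mul, Pi.zero_apply, a0, a1, b0, b1] at h0 h1
    constructor <;> linarith
  have hsp : ⊤ ≤ Submodule.span ℝ (Set.range ![(⟨u1, u1_mem⟩ : Eig G12 2), ⟨u2, u2_mem⟩]) := by
    rintro ⟨x, hx⟩ -
    rw [Submodule.mem_span_range_iff_exists_fun]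
    refine ⟨![x 0 / 2, x 1 - x 0 / 2], ?_⟩
    apply Subtype.ext
    ext i
    simp only [Fin.sum_univ_two, Matrix.cons_val_zero, Matrix.cons_val_one, Submodule.coe_add,
      Submodule.coe_smul, Pi.add_apply, Pi.smul_apply, smul_eq_mul]
    have := eig_span hx i
    linarith
  have := Module.finrank_eq_card_basis (Module.Basis.mk hli hsp)
  simpa using this

/-- **The second eigenpolytope can have a graph edge as a diagonal.** -/
theorem result :
    ∃ (G : SimpleGraph (Fin 12)) (_ : DecidableRel G.Adj) (i j : Fin 12),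
      G.Adj i j ∧ IsSecondEigenvalue G 2 ∧ Module.finrank ℝ (Eig G 2) = 2 ∧
      ∀ (d : ℕ) (b : Module.Basis (Fin d) ℝ (Eig G 2)),
        pt b i ≠ pt b j ∧
        pt b i ∈ (eigenpolytope b).extremePoints ℝ ∧
        pt b j ∈ (eigenpolytope b).extremePoints ℝ ∧
        ¬ IsExtreme ℝ (eigenpolytope b) (segment ℝ (pt b i) (pt b j)) ∧
        ¬ IsExposed ℝ (eigenpolytope b) (segment ℝ (pt b i) (pt b j)) := by
  refine ⟨G12, inferInstance, 0, 2, by decide, second, finrank_two, ?_⟩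
  intro d b
  obtain ⟨⟨a0, a1, a2, a3, a4, a5, a6, a7, a8, a9, a10, a11⟩,
    ⟨c0, c1, c2, c3, c4, c5, c6, c7, c8, c9, c10, c11⟩⟩ := u_vals
  obtain ⟨l1, hl1⟩ := functional b u1_mem
  obtain ⟨l2, hl2⟩ := functional b u2_mem
  have hne : pt b 0 ≠ pt b 2 := by
    intro h
    have := congrArg l1 h
    rw [hl1, hl1, a0, a2] at this
    norm_num at this
  have hspan := pt_span b
  have hhalf : ∀ x y : Fin d → ℝ, (2:ℝ) • x = (2:ℝ) • y → x = y := fun x y h =>
    smul_right_injective _ (two_ne_zero) h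
  have h6 : pt b 6 = pt b 0 := by
    apply hhalf; rw [hspan 6, a6, c6]; simp
  have h8 : pt b 8 = pt b 2 := by
    apply hhalf; rw [hspan 8, hspan 2, a8, a2, c8, c2]
  have h1 : pt b 1 = pt b 0 + pt b 2 := by
    apply hhalf; rw [smul_add, hspan 2, a2, c2]; module
  have h4 : pt b 4 = - pt b 1 := by
    apply hhalf; rw [hspan 4, a4, c4]; module
  have hnex : ¬ IsExtreme ℝ (eigenpolytope b) (segment ℝ (pt b 0) (pt b 2)) := by
    intro hex
    have h0mem : (0 : Fin d → ℝ) ∈ eigenpolytope b := by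
      have hc : Convex ℝ (eigenpolytope b) := convex_convexHull ℝ _
      have := hc (pt_mem b 1) (pt_mem b 4) (a := 1/2) (b := 1/2) (by norm_num) (by norm_num)
        (by norm_num)
      rw [h4] at this
      simpa using this
    have hz : (1/2 : ℝ) • pt b 0 + (1/2 : ℝ) • pt b 2 ∈ segment ℝ (pt b 0) (pt b 2) :=
      ⟨1/2, 1/2, by norm_num, by norm_num, by norm_num, rfl⟩
    have hz2 : (1/2 : ℝ) • pt b 0 + (1/2 : ℝ) • pt b 2 ∈ openSegment ℝ (pt b 1) 0 :=
      ⟨1/2, 1/2, by norm_num, by norm_num, by norm_num, by rw [h1]; simp⟩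
    obtain ⟨s, t, hs, ht, hst, hst2⟩ :=
      hex.left_mem_of_mem_openSegment (pt_mem b 1) h0mem hz hz2
    have e1 := congrArg l1 hst2
    have e2 := congrArg l2 hst2
    rw [map_add, map_smul, map_smul, hl1, hl1, hl1, a0, a1, a2] at e1
    rw [map_add, map_smul, map_smul, hl2, hl2, hl2, c0, c1, c2] at e2
    simp only [smul_eq_mul] at e1 e2
    linarith
  refine ⟨hne, ?_, ?_, hnex, fun h => hnex h.isExtreme⟩
  · apply vertex_of b l1
    · intro j
      rw [hl1, hl1]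
      fin_cases j <;> simp [a0, a1, a2, a3, a4, a5, a6, a7, a8, a9, a10, a11] <;> norm_num
    · intro j hj
      rw [hl1, hl1] at hj
      fin_cases j <;>
        simp [a0, a1, a2, a3, a4, a5, a6, a7, a8, a9, a10, a11] at hj ⊢ <;>
        first | exact h6 | (norm_num at hj)
  · have hm : ∀ j, (3 • l2 - l1) (pt b j) = 3 * u2 j - u1 j := by
      intro j
      simp [hl1, hl2]
    apply vertex_of b (3 • l2 - l1)
    · intro j
      rw [hm, hm]
      fin_cases j <;> simp [a0, a1, a2, a3, a4, a5, a6, a7, a8, a9, a10, a11, c0, c1, c2, c3, c4,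
        c5, c6, c7, c8, c9, c10, c11] <;> norm_num
    · intro j hj
      rw [hm, hm] at hj
      fin_cases j <;>
        simp [a0, a1, a2, a3, a4, a5, a6, a7, a8, a9, a10, a11, c0, c1, c2, c3, c4,
        c5, c6, c7, c8, c9, c10, c11] at hj ⊢ <;>
        first | exact h8 | (norm_num at hj)

end Pool.Agent.Results.MP_0d5a8e_co.DiagonalEdge
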